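import Mathlib

open MeasureTheory Set
open scoped ENNReal

namespace Pool.Agent.H45.CircMax

/-- The mean of `|f|` over the circle with centre `x` and radius `r`:
`(1/2π) ∫_0^{2π} |f(x + r (cos θ, sin θ))| dθ`. -/
noncomputable def circAvg (f : ℝ × ℝ → ℂ) (x : ℝ × ℝ) (r : ℝ) : ℝ≥0∞ :=
  (∫⁻ θ in Ioc 0 (2 * Real.pi), ‖f (x.1 + r * Real.cos θ, x.2 + r * Real.sin θ)‖ₑ) /
    ENNReal.ofReal (2 * Real.pi)

/-- The circular maximal operator with radii restricted to the set `T`; `T = (0, ∞)` gives the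
circular maximal operator. -/
noncomputable def circMax (T : Set ℝ) (f : ℝ × ℝ → ℂ) (x : ℝ × ℝ) : ℝ≥0∞ :=
  ⨆ r ∈ T, circAvg f x r

/-- `circMax T` satisfies the restricted weak type `(2,2)` inequality with constant `C`. -/
def RestrictedWeakType (T : Set ℝ) (C : ℝ) : Prop :=
  ∀ E : Set (ℝ × ℝ), MeasurableSet E → volume E < ∞ → ∀ lam : ℝ, 0 < lam →
    volume {x | ENNReal.ofReal lam < circMax T (E.indicator 1) x} ≤
      ENNReal.ofReal (C * (lam ^ 2)⁻¹) * volume E

end Pool.Agent.H45.CircMax
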