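import Pool.Agent.H45.CircMax.Kakeya

open MeasureTheory Set
open scoped ENNReal

namespace Pool.Agent.H45.CircMax

/-- scale -/
noncomputable def eta (n : ℕ) : ℝ := (1/2:ℝ) ^ n

lemma eta_pos (n : ℕ) : 0 < eta n := by unfold eta; positivity

lemma eta_le {n : ℕ} (hn : 2 ≤ n) : eta n ≤ 1/4 := by
  unfold eta
  calc (1/2:ℝ) ^ n ≤ (1/2:ℝ) ^ 2 := pow_le_pow_of_le_one (by norm_num) (by norm_num) hn
    _ = 1/4 := by norm_num

/-- vertical coordinate of the centre of the parallelogram -/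
noncomputable def p2 (n : ℕ) (S : Finset ℕ) : ℝ := eta n * (yy n S (1/4) + eta n / 2)

lemma mem_EE {n : ℕ} {S : Finset ℕ} (hS : S ⊆ Finset.range n) {q1 q2 : ℝ}
    (h1 : |q1 - eta n / 4| ≤ eta n / 4)
    (h2 : |(q2 - p2 n S) - slope S * (q1 - eta n / 4)| ≤ eta n ^ 2 / 2) : (q1, q2) ∈ EE n := by
  have hη := eta_pos n
  have e0 : ((1/2:ℝ) ^ n)⁻¹ = (eta n)⁻¹ := rfl
  have hmul : eta n * (eta n)⁻¹ = 1 := mul_inv_cancel₀ hη.ne'
  change (((1/2:ℝ) ^ n)⁻¹ • (q1, q2) : ℝ × ℝ) ∈ K n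
  rw [e0]
  simp only [Prod.smul_mk, smul_eq_mul]
  rw [abs_le] at h1 h2
  have e1 : eta n ^ 2 * (eta n)⁻¹ = eta n := by field_simp
  refine ⟨?_, ?_, S, hS, ?_, ?_⟩
  · simp only
    apply mul_nonneg (by positivity)
    linarith [h1.1]
  · simp only
    rw [inv_mul_le_iff₀ hη]
    linarith [h1.2]
  all_goals
    simp only
    have e2 := yy_sub n S ((eta n)⁻¹ * q1) (1/4)
    have e3 : (eta n)⁻¹ * p2 n S = yy n S (1/4) + eta n / 2 := by
      unfold p2; field_simp
    have e4 : (eta n)⁻¹ * q2 - yy n S ((eta n)⁻¹ * q1) =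
        (eta n)⁻¹ * ((q2 - p2 n S) - slope S * (q1 - eta n / 4)) + eta n / 2 := by
      have e5 : yy n S ((eta n)⁻¹ * q1) = yy n S (1/4) + slope S * ((eta n)⁻¹ * q1 - 1/4) := by
        linarith
      rw [e5]
      have e6 : (eta n)⁻¹ * ((q2 - p2 n S) - slope S * (q1 - eta n / 4)) =
        (eta n)⁻¹ * q2 - (eta n)⁻¹ * p2 n S - slope S * ((eta n)⁻¹ * q1 -
          (eta n * (eta n)⁻¹) / 4) := by ring
      rw [e6, e3, hmul]
      ring
    have h3 := mul_le_mul_of_nonneg_left h2.1 (inv_pos.2 hη).le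
    have h4 := mul_le_mul_of_nonneg_left h2.2 (inv_pos.2 hη).le
    have e7 : (eta n)⁻¹ * (eta n ^ 2 / 2) = eta n / 2 := by field_simp
    have e8 : (eta n)⁻¹ * (-(eta n ^ 2 / 2)) = -(eta n / 2) := by rw [mul_neg, e7]
    have e9 : (1/2:ℝ) ^ n = eta n := rfl
    rw [e8] at h3
    rw [e7] at h4
    linarith

/-- the geometric lemma -/
lemma arc_mem {n : ℕ} (hn : 2 ≤ n) {S : Finset ℕ} (hS : S ⊆ Finset.range n) {x1 x2 r d φ β : ℝ}
    (hx2 : x2 < 0) (hx2' : -4 ≤ x2)
    (hsec1 : 0 ≤ x1 + slope S * x2) (hsec2 : x1 + slope S * x2 ≤ eta n * (-x2))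
    (hd1 : 1 ≤ d) (hd2 : d ≤ 2) (hr : |r - d| ≤ eta n ^ 2 / 32)
    (hφ1 : d * Real.cos φ = eta n / 4 - x1) (hφ2 : d * Real.sin φ = p2 n S - x2)
    (hβ0 : 0 ≤ β) (hβ1 : β ≤ eta n / 64) :
    (x1 + r * Real.cos (φ + β), x2 + r * Real.sin (φ + β)) ∈ EE n := by
  have hη := eta_pos n
  have hη4 := eta_le hn
  have hμ0 := slope_nonneg S
  have hμ1 := slope_le_one hS
  have hp2 : |p2 n S| ≤ 3/2 * eta n := by
    unfold p2
    rw [abs_mul, abs_of_pos hη]
    have h1 := yy_abs_le hS (t := 1/4) (by norm_num) (by norm_num)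
    rw [abs_le] at h1
    have h2 : |yy n S (1/4) + eta n / 2| ≤ 3/2 := by
      rw [abs_le]; constructor <;> linarith [h1.1, h1.2]
    nlinarith
  have hp2' := abs_le.1 hp2
  set c := Real.cos β with hc
  set s := Real.sin β with hs
  have hc1 : c ≤ 1 := Real.cos_le_one β
  have hc2 : 1 - β ^ 2 / 2 ≤ c := Real.one_sub_sq_div_two_le_cos
  have hs0 : 0 ≤ s := Real.sin_nonneg_of_nonneg_of_le_pi hβ0 (by linarith [Real.pi_gt_three])
  have hs1 : s ≤ β := Real.sin_le hβ0
  have hr' := abs_le.1 hr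
  have hr0 : 0 ≤ r := by nlinarith
  have hr3 : r ≤ 3 := by nlinarith
  set u1 := Real.cos φ with hu1
  set u2 := Real.sin φ with hu2
  have hu1' : |u1| ≤ 1 := Real.abs_cos_le_one φ
  have hu2' : |u2| ≤ 1 := Real.abs_sin_le_one φ
  have hcos : Real.cos (φ + β) = u1 * c - u2 * s := Real.cos_add φ β
  have hsin : Real.sin (φ + β) = u2 * c + u1 * s := Real.sin_add φ β
  rw [hcos, hsin]
  -- the two coefficients
  set A := r * c - d with hA
  set B := r * s with hB
  have hA1 : |A| ≤ eta n ^ 2 / 28 := by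
    have h1 : r * c - r ≤ 0 := by nlinarith
    have h2 : -(3 * (β ^ 2 / 2)) ≤ r * c - r := by
      have : 0 ≤ β ^ 2 / 2 := by positivity
      nlinarith
    have h3 : β ^ 2 ≤ eta n ^ 2 / 4096 := by
      have : β ^ 2 ≤ (eta n / 64) ^ 2 := pow_le_pow_left₀ hβ0 hβ1 2
      nlinarith
    rw [abs_le]
    constructor <;> nlinarith [sq_nonneg (eta n)]
  have hB0 : 0 ≤ B := mul_nonneg hr0 hs0
  have hB1 : B ≤ 3 / 64 * eta n := by
    have : r * s ≤ 3 * (eta n / 64) := mul_le_mul hr3 (hs1.trans hβ1) hs0 (by norm_num)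
    rw [hB]; linarith
  have e1 : x1 + r * (u1 * c - u2 * s) - eta n / 4 = A * u1 - B * u2 := by
    rw [hA, hB]; linear_combination hφ1
  have e2 : x2 + r * (u2 * c + u1 * s) - p2 n S = A * u2 + B * u1 := by
    rw [hA, hB]; linear_combination hφ2
  apply mem_EE hS
  · rw [e1]
    calc |A * u1 - B * u2| ≤ |A * u1| + |B * u2| := abs_sub _ _
      _ = |A| * |u1| + B * |u2| := by rw [abs_mul, abs_mul, abs_of_nonneg hB0]
      _ ≤ |A| * 1 + B * 1 := by
        apply add_le_add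
        · exact mul_le_mul_of_nonneg_left hu1' (abs_nonneg _)
        · exact mul_le_mul_of_nonneg_left hu2' hB0
      _ ≤ eta n / 4 := by nlinarith
  · rw [e1, e2]
    -- `u⊥ · n = u1 + μ u2`
    have hperp : |u1 + slope S * u2| ≤ 6 * eta n := by
      have h1 : d * (u1 + slope S * u2) = (eta n / 4 + slope S * p2 n S) - (x1 + slope S * x2) := by
        linear_combination hφ1 + slope S * hφ2
      have h2 : |slope S * p2 n S| ≤ 3/2 * eta n := by
        rw [abs_mul, abs_of_nonneg hμ0]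
        calc slope S * |p2 n S| ≤ 1 * |p2 n S| := mul_le_mul_of_nonneg_right hμ1 (abs_nonneg _)
          _ ≤ 3/2 * eta n := by rw [one_mul]; exact hp2
      have h2' := abs_le.1 h2
      have h3 : eta n * (-x2) ≤ 4 * eta n := by nlinarith
      have h4 : |d * (u1 + slope S * u2)| ≤ 6 * eta n := by
        rw [h1, abs_le]
        constructor <;> linarith [h2'.1, h2'.2]
      rw [abs_mul, abs_of_pos (by linarith)] at h4
      calc |u1 + slope S * u2| = 1 * |u1 + slope S * u2| := (one_mul _).symm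
        _ ≤ d * |u1 + slope S * u2| := mul_le_mul_of_nonneg_right hd1 (abs_nonneg _)
        _ ≤ 6 * eta n := h4
    have hn' : |u2 - slope S * u1| ≤ 2 := by
      calc |u2 - slope S * u1| ≤ |u2| + |slope S * u1| := abs_sub _ _
        _ = |u2| + slope S * |u1| := by rw [abs_mul, abs_of_nonneg hμ0]
        _ ≤ 1 + 1 * 1 := add_le_add hu2' (mul_le_mul hμ1 hu1' (abs_nonneg _) (by norm_num))
        _ = 2 := by norm_num
    have e3 : A * u2 + B * u1 - slope S * (A * u1 - B * u2) =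
        A * (u2 - slope S * u1) + B * (u1 + slope S * u2) := by ring
    rw [e3]
    calc |A * (u2 - slope S * u1) + B * (u1 + slope S * u2)|
        ≤ |A * (u2 - slope S * u1)| + |B * (u1 + slope S * u2)| := abs_add_le _ _
      _ = |A| * |u2 - slope S * u1| + B * |u1 + slope S * u2| := by
        rw [abs_mul, abs_mul, abs_of_nonneg hB0]
      _ ≤ eta n ^ 2 / 28 * 2 + 3 / 64 * eta n * (6 * eta n) := by
        apply add_le_add
        · exact mul_le_mul hA1 hn' (abs_nonneg _) (by positivity)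
        · exact mul_le_mul hB1 hperp (abs_nonneg _) (by positivity)
      _ ≤ eta n ^ 2 / 2 := by nlinarith [sq_nonneg (eta n)]

end Pool.Agent.H45.CircMax
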