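import Pool.Agent.H45.CircMax.Geom

open MeasureTheory Set
open scoped ENNReal

namespace Pool.Agent.H45.CircMax

lemma circAvg_ge {n : ℕ} {x : ℝ × ℝ} {r φ : ℝ} (hn : 2 ≤ n) (hφ : 0 ≤ φ) (hφ' : φ ≤ Real.pi)
    (h : ∀ β, 0 ≤ β → β ≤ eta n / 64 →
      (x.1 + r * Real.cos (φ + β), x.2 + r * Real.sin (φ + β)) ∈ EE n) :
    ENNReal.ofReal (eta n / 1024) < circAvg ((EE n).indicator 1) x r := by
  have hη := eta_pos n
  have hη4 := eta_le hn
  have hpi := Real.pi_gt_three
  have hpi2 := Real.pi_lt_four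
  have h1 : ENNReal.ofReal (eta n / 64) ≤
      ∫⁻ θ in Ioc 0 (2 * Real.pi), ‖(EE n).indicator (1 : ℝ × ℝ → ℂ)
        (x.1 + r * Real.cos θ, x.2 + r * Real.sin θ)‖ₑ := by
    calc ENNReal.ofReal (eta n / 64) = ∫⁻ _ in Ioc φ (φ + eta n / 64), (1 : ℝ≥0∞) := by
          rw [setLIntegral_const, Real.volume_Ioc, one_mul]; congr 1; ring
      _ ≤ ∫⁻ θ in Ioc φ (φ + eta n / 64), ‖(EE n).indicator (1 : ℝ × ℝ → ℂ)
        (x.1 + r * Real.cos θ, x.2 + r * Real.sin θ)‖ₑ := by
          apply setLIntegral_mono' measurableSet_Ioc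
          intro θ hθ
          have h2 := h (θ - φ) (by linarith [hθ.1]) (by linarith [hθ.2])
          rw [add_sub_cancel] at h2
          rw [indicator_of_mem h2]
          simp
      _ ≤ _ := by
          apply lintegral_mono_set
          intro θ hθ
          exact ⟨by linarith [hθ.1], by linarith [hθ.2]⟩
  unfold circAvg
  rw [ENNReal.lt_div_iff_mul_lt (Or.inl (ENNReal.ofReal_pos.2 (by positivity)).ne')
    (Or.inl ENNReal.ofReal_ne_top)]
  refine lt_of_lt_of_le ?_ h1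
  rw [← ENNReal.ofReal_mul (by positivity)]
  rw [ENNReal.ofReal_lt_ofReal_iff (by positivity)]
  nlinarith

/-- distance to the centre of the parallelogram -/
noncomputable def dd (n : ℕ) (S : Finset ℕ) (x : ℝ × ℝ) : ℝ :=
  Real.sqrt ((x.1 - eta n / 4) ^ 2 + (x.2 - p2 n S) ^ 2)

/-- thickening -/
def thick (T : Set ℝ) (δ : ℝ) : Set ℝ := {u | ∃ t ∈ T, |t - u| < δ}

lemma isOpen_thick (T : Set ℝ) (δ : ℝ) : IsOpen (thick T δ) := by
  have : thick T δ = ⋃ t ∈ T, {u | |t - u| < δ} := by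
    ext u; simp [thick]
  rw [this]
  apply isOpen_biUnion
  intro t _
  exact isOpen_lt (by fun_prop) continuous_const

/-- the good set for the index `S` -/
def GS (n : ℕ) (T : Set ℝ) (S : Finset ℕ) : Set (ℝ × ℝ) :=
  {x | x.2 ≤ -(1/4)} ∩ {x | -4 ≤ x.2} ∩ {x | 0 ≤ x.1 + slope S * x.2} ∩
    {x | x.1 + slope S * x.2 ≤ eta n * (-x.2)} ∩
    (dd n S) ⁻¹' (thick T (eta n ^ 2 / 32) ∩ Icc 1 2)

/-- the good set -/
def G (n : ℕ) (T : Set ℝ) : Set (ℝ × ℝ) := ⋃ S ∈ (Finset.range n).powerset, GS n T S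

lemma continuous_dd (n : ℕ) (S : Finset ℕ) : Continuous (dd n S) := by
  unfold dd
  fun_prop

lemma measurableSet_G (n : ℕ) (T : Set ℝ) : MeasurableSet (G n T) := by
  apply Finset.measurableSet_biUnion
  intro S _
  unfold GS
  refine ((((isClosed_le (by fun_prop) (by fun_prop)).measurableSet.inter
    (isClosed_le (by fun_prop) (by fun_prop)).measurableSet).inter
    (isClosed_le (by fun_prop) (by fun_prop)).measurableSet).inter
    (isClosed_le (by fun_prop) (by fun_prop)).measurableSet).inter ?_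
  exact (continuous_dd n S).measurable ((isOpen_thick _ _).measurableSet.inter measurableSet_Icc)

lemma p2_ge {n : ℕ} {S : Finset ℕ} (hS : S ⊆ Finset.range n) : -eta n ≤ p2 n S := by
  have hη := eta_pos n
  unfold p2
  have h1 := (abs_le.1 (yy_abs_le hS (t := 1/4) (by norm_num) (by norm_num))).1
  nlinarith

lemma exists_phi {n : ℕ} (hn : 2 ≤ n) {S : Finset ℕ} (hS : S ⊆ Finset.range n) {x : ℝ × ℝ}
    (hx : x.2 ≤ -(1/4)) (hd : 1 ≤ dd n S x) :
    ∃ φ, 0 ≤ φ ∧ φ ≤ Real.pi ∧ dd n S x * Real.cos φ = eta n / 4 - x.1 ∧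
      dd n S x * Real.sin φ = p2 n S - x.2 := by
  have hη := eta_pos n
  have hη4 := eta_le hn
  have hp := p2_ge hS
  set d := dd n S x with hdd
  have hdpos : 0 < d := by linarith
  have hsq : d ^ 2 = (eta n / 4 - x.1) ^ 2 + (p2 n S - x.2) ^ 2 := by
    rw [hdd, dd, Real.sq_sqrt (by positivity)]; ring
  have hnn : 0 ≤ p2 n S - x.2 := by linarith
  have h1 : |(eta n / 4 - x.1) / d| ≤ 1 := by
    rw [abs_div, abs_of_pos hdpos, div_le_one hdpos]
    refine abs_le_of_sq_le_sq ?_ hdpos.le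
    rw [hsq]
    nlinarith [sq_nonneg (p2 n S - x.2)]
  rw [abs_le] at h1
  refine ⟨Real.arccos ((eta n / 4 - x.1) / d), Real.arccos_nonneg _, Real.arccos_le_pi _, ?_, ?_⟩
  · rw [Real.cos_arccos h1.1 h1.2]
    field_simp
  · rw [Real.sin_arccos]
    have h2 : 1 - ((eta n / 4 - x.1) / d) ^ 2 = ((p2 n S - x.2) / d) ^ 2 := by
      rw [div_pow, div_pow, eq_div_iff (by positivity), sub_mul, one_mul,
        div_mul_cancel₀ _ (by positivity), hsq]
      ring
    rw [h2, Real.sqrt_sq (div_nonneg hnn hdpos.le)]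
    field_simp

lemma G_subset {n : ℕ} (hn : 2 ≤ n) (T : Set ℝ) :
    G n T ⊆ {x | ENNReal.ofReal (eta n / 1024) < circMax T ((EE n).indicator 1) x} := by
  intro x hx
  unfold G at hx
  rw [mem_iUnion₂] at hx
  obtain ⟨S, hS, ⟨⟨⟨hx1, hx2⟩, hx3⟩, hx4⟩, hx5, hx6⟩ := hx
  rw [Finset.mem_powerset] at hS
  simp only [mem_ofPred_eq] at hx1 hx2 hx3 hx4
  obtain ⟨t, ht, htd⟩ := hx5
  obtain ⟨φ, hφ0, hφ1, hφ2, hφ3⟩ := exists_phi hn hS hx1 hx6.1
  have h1 : ENNReal.ofReal (eta n / 1024) < circAvg ((EE n).indicator 1) x t := by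
    apply circAvg_ge hn hφ0 hφ1
    intro β hβ0 hβ1
    exact arc_mem hn hS (by linarith) hx2 hx3 hx4 hx6.1 hx6.2 htd.le hφ2 hφ3 hβ0 hβ1
  refine lt_of_lt_of_le h1 ?_
  exact le_iSup₂ (f := fun r (_ : r ∈ T) => circAvg ((EE n).indicator 1) x r) t ht

/-- radial distance function -/
noncomputable def gg (n : ℕ) (S : Finset ℕ) (θ ρ : ℝ) : ℝ :=
  dd n S (ρ * Real.cos θ, ρ * Real.sin θ)

lemma gg_eq (n : ℕ) (S : Finset ℕ) (θ ρ : ℝ) : gg n S θ ρ =
    ‖(⟨ρ * Real.cos θ - eta n / 4, ρ * Real.sin θ - p2 n S⟩ : ℂ)‖ := by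
  rw [Complex.norm_eq_sqrt_sq_add_sq]
  rfl

lemma gg_lip (n : ℕ) (S : Finset ℕ) (θ : ℝ) : LipschitzWith 1 (gg n S θ) := by
  apply LipschitzWith.of_dist_le_mul
  intro ρ ρ'
  rw [NNReal.coe_one, one_mul, Real.dist_eq, Real.dist_eq, gg_eq, gg_eq]
  refine (abs_norm_sub_norm_le _ _).trans (le_of_eq ?_)
  rw [Complex.norm_eq_sqrt_sq_add_sq]
  simp only [Complex.sub_re, Complex.sub_im]
  have : (ρ * Real.cos θ - eta n / 4 - (ρ' * Real.cos θ - eta n / 4)) ^ 2 +
      (ρ * Real.sin θ - p2 n S - (ρ' * Real.sin θ - p2 n S)) ^ 2 = (ρ - ρ') ^ 2 := by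
    have h := Real.sin_sq_add_cos_sq θ
    linear_combination (ρ - ρ') ^ 2 * h
  rw [this, Real.sqrt_sq_eq_abs]

lemma gg_bounds {n : ℕ} (hn : 2 ≤ n) {S : Finset ℕ} (hS : S ⊆ Finset.range n) (θ : ℝ) :
    gg n S θ (1/2) ≤ 1 ∧ 2 ≤ gg n S θ 3 := by
  have hη := eta_pos n
  have hη4 := eta_le hn
  have hp : |p2 n S| ≤ 3/2 * eta n := by
    unfold p2
    rw [abs_mul, abs_of_pos hη]
    have h1 := yy_abs_le hS (t := 1/4) (by norm_num) (by norm_num)
    rw [abs_le] at h1
    have h2 : |yy n S (1/4) + eta n / 2| ≤ 3/2 := by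
      rw [abs_le]; constructor <;> linarith [h1.1, h1.2]
    nlinarith
  have h0 : gg n S θ 0 ≤ 1/2 := by
    unfold gg dd
    simp only [zero_mul, zero_sub]
    rw [Real.sqrt_le_left (by norm_num)]
    have h1 : (p2 n S) ^ 2 ≤ (3/2 * eta n) ^ 2 := by
      rw [← sq_abs]; exact pow_le_pow_left₀ (abs_nonneg _) hp 2
    nlinarith
  have hlip := gg_lip n S θ
  have h1 := hlip.dist_le_mul (1/2) 0
  have h2 := hlip.dist_le_mul 3 0
  have hnorm : gg n S θ 3 + gg n S θ 0 ≥ 3 := by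
    rw [gg_eq, gg_eq]
    have h3 := norm_sub_le (⟨3 * Real.cos θ - eta n / 4, 3 * Real.sin θ - p2 n S⟩ : ℂ)
      (⟨0 * Real.cos θ - eta n / 4, 0 * Real.sin θ - p2 n S⟩ : ℂ)
    refine le_trans (le_of_eq ?_) h3
    rw [Complex.norm_eq_sqrt_sq_add_sq]
    simp only [Complex.sub_re, Complex.sub_im]
    have : (3 * Real.cos θ - eta n / 4 - (0 * Real.cos θ - eta n / 4)) ^ 2 +
        (3 * Real.sin θ - p2 n S - (0 * Real.sin θ - p2 n S)) ^ 2 = 3 ^ 2 := by
      have h := Real.sin_sq_add_cos_sq θ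
      linear_combination 9 * h
    rw [this, Real.sqrt_sq (by norm_num)]
  rw [Real.dist_eq, Real.dist_eq, NNReal.coe_one, one_mul] at h1
  have h1' := (abs_le.1 h1).2
  rw [sub_zero, abs_of_pos (by norm_num : (0:ℝ) < 1/2)] at h1'
  constructor
  · linarith
  · linarith

lemma fibre {n : ℕ} (hn : 2 ≤ n) {S : Finset ℕ} (hS : S ⊆ Finset.range n) (θ : ℝ) (A : Set ℝ)
    (hA : A ⊆ Icc 1 2) :
    volume A ≤ volume (Icc (1/2) 3 ∩ gg n S θ ⁻¹' A) := by
  obtain ⟨h1, h2⟩ := gg_bounds hn hS θ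
  have hsub : A ⊆ gg n S θ '' (Icc (1/2) 3 ∩ gg n S θ ⁻¹' A) := by
    intro a ha
    have ha' := hA ha
    obtain ⟨ρ, hρ, hρa⟩ := intermediate_value_Icc (show (1/2:ℝ) ≤ 3 by norm_num)
      (gg_lip n S θ).continuous.continuousOn ⟨h1.trans ha'.1, ha'.2.trans h2⟩
    exact ⟨ρ, ⟨hρ, by rw [mem_preimage, hρa]; exact ha⟩, hρa⟩
  refine (measure_mono hsub).trans ?_
  have h3 := ((gg_lip n S θ).lipschitzOnWith (s := Icc (1/2) 3 ∩ gg n S θ ⁻¹' A)).hausdorffMeasure_image_le
    (d := 1) (by norm_num)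
  rw [hausdorffMeasure_real] at h3
  simpa using h3

lemma volume_G_ge {n : ℕ} (hn : 2 ≤ n) (T : Set ℝ) :
    ENNReal.ofReal (3/8) * volume (thick T (eta n ^ 2 / 32) ∩ Icc 1 2) ≤ volume (G n T) := by
  have hη := eta_pos n
  have hη4 := eta_le hn
  have hpi := Real.pi_gt_three
  set A := thick T (eta n ^ 2 / 32) ∩ Icc 1 2 with hA
  have h1 : volume (G n T) = ∫⁻ p in polarCoord.target, ENNReal.ofReal p.1 •
      (G n T).indicator 1 (polarCoord.symm p) := by
    rw [lintegral_comp_polarCoord_symm, lintegral_indicator_one (measurableSet_G n T)]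
  set R : Set (ℝ × ℝ) := Icc (1/2) 3 ×ˢ Ioo (-(Real.pi / 2)) (-(Real.pi / 4)) with hR
  have hRsub : R ⊆ polarCoord.target := by
    rintro ⟨ρ, θ⟩ ⟨hρ, hθ⟩
    rw [polarCoord_target]
    refine ⟨?_, ?_, ?_⟩
    · simp only [mem_Icc] at hρ
      exact lt_of_lt_of_le (by norm_num) hρ.1
    · have := hθ.1
      simp only at this ⊢
      linarith
    · have := hθ.2
      simp only at this ⊢
      linarith
  have hRm : MeasurableSet R := measurableSet_Icc.prod measurableSet_Ioo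
  have h2 : ∫⁻ p in R, ENNReal.ofReal (1/2) * (G n T).indicator 1 (polarCoord.symm p) ≤
      volume (G n T) := by
    rw [h1]
    refine le_trans ?_ (lintegral_mono_set hRsub)
    apply setLIntegral_mono' hRm
    rintro ⟨ρ, θ⟩ ⟨hρ, hθ⟩
    rw [smul_eq_mul]
    apply mul_le_mul_left
    exact ENNReal.ofReal_le_ofReal hρ.1
  refine le_trans ?_ h2
  have hmeas : Measurable fun p : ℝ × ℝ => (G n T).indicator (1 : ℝ × ℝ → ℝ≥0∞)
      (p.1 * Real.cos p.2, p.1 * Real.sin p.2) := by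
    apply (measurable_one.indicator (measurableSet_G n T)).comp
    fun_prop
  have hsymm : ∀ p : ℝ × ℝ, polarCoord.symm p = (p.1 * Real.cos p.2, p.1 * Real.sin p.2) :=
    fun p => rfl
  simp_rw [hsymm]
  rw [lintegral_const_mul _ hmeas, hR, Measure.volume_eq_prod, ← Measure.prod_restrict,
    lintegral_prod_symm' _ hmeas]
  have h3 : ∀ θ ∈ Ioo (-(Real.pi / 2)) (-(Real.pi / 4)), volume A ≤
      ∫⁻ ρ in Icc (1/2:ℝ) 3, (G n T).indicator (1 : ℝ × ℝ → ℝ≥0∞)
        (ρ * Real.cos θ, ρ * Real.sin θ) := by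
    intro θ hθ
    -- the slope
    have hcos : 0 < Real.cos θ := Real.cos_pos_of_mem_Ioo ⟨by linarith [hθ.1], by linarith [hθ.2]⟩
    have hsin : Real.sin θ < -Real.cos θ := by
      have h4 : 0 < Real.cos (θ - Real.pi / 4 + Real.pi) := by
        apply Real.cos_pos_of_mem_Ioo
        constructor
        · linarith [hθ.1]
        · linarith [hθ.2]
      rw [Real.cos_add_pi, Real.cos_sub, Real.cos_pi_div_four, Real.sin_pi_div_four] at h4
      have h5 : 0 < Real.sqrt 2 / 2 := by positivity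
      nlinarith
    have hsin0 : Real.sin θ < 0 := by linarith
    have hsin1 : -1 ≤ Real.sin θ := Real.neg_one_le_sin θ
    have hsin2 : Real.sin θ ≤ -(1/2) := by
      have := Real.sin_sq_add_cos_sq θ
      nlinarith
    set m := -Real.cos θ / Real.sin θ with hm
    have hm0 : 0 ≤ m := by
      rw [hm, neg_div, ← div_neg]
      exact div_nonneg hcos.le (by linarith)
    have hm1 : m < 1 := by
      rw [hm, neg_div, ← div_neg, div_lt_one (by linarith)]
      linarith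
    have hms : m * Real.sin θ = -Real.cos θ := by
      rw [hm, div_mul_cancel₀ _ hsin0.ne]
    obtain ⟨S, hS, hS1, hS2⟩ := slope_cover n hm0 hm1
    refine (fibre hn hS θ A inter_subset_right).trans ?_
    have h6 : volume (Icc (1/2:ℝ) 3 ∩ gg n S θ ⁻¹' A) =
        ∫⁻ ρ in Icc (1/2:ℝ) 3, (gg n S θ ⁻¹' A).indicator (1 : ℝ → ℝ≥0∞) ρ := by
      have hmA : MeasurableSet (gg n S θ ⁻¹' A) :=
        (gg_lip n S θ).continuous.measurable
          ((isOpen_thick _ _).measurableSet.inter measurableSet_Icc)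
      rw [lintegral_indicator_one hmA, Measure.restrict_apply hmA, inter_comm]
    rw [h6]
    apply setLIntegral_mono' measurableSet_Icc
    intro ρ hρ
    by_cases hρA : ρ ∈ gg n S θ ⁻¹' A
    · rw [indicator_of_mem hρA, indicator_of_mem]
      · simp
      · unfold G
        rw [mem_iUnion₂]
        refine ⟨S, Finset.mem_powerset.2 hS, ⟨⟨⟨?_, ?_⟩, ?_⟩, ?_⟩, hρA⟩
        · simp only [mem_ofPred_eq]
          nlinarith [hρ.1]
        · simp only [mem_ofPred_eq]
          nlinarith [hρ.1, hρ.2]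
        · simp only [mem_ofPred_eq]
          have : ρ * Real.cos θ + slope S * (ρ * Real.sin θ) =
            ρ * ((slope S - m) * Real.sin θ) := by
            linear_combination ρ * hms
          rw [this]
          apply mul_nonneg (by linarith [hρ.1])
          exact mul_nonneg_of_nonpos_of_nonpos (by linarith) hsin0.le
        · simp only [mem_ofPred_eq]
          have : ρ * Real.cos θ + slope S * (ρ * Real.sin θ) =
            (m - slope S) * (-(ρ * Real.sin θ)) := by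
            linear_combination ρ * hms
          rw [this]
          apply mul_le_mul_of_nonneg_right
          · unfold eta
            linarith
          · nlinarith [hρ.1]
    · rw [indicator_of_notMem hρA]
      exact zero_le
  have h7 : ENNReal.ofReal (Real.pi / 4) * volume A ≤
      ∫⁻ θ in Ioo (-(Real.pi / 2)) (-(Real.pi / 4)), ∫⁻ ρ in Icc (1/2:ℝ) 3,
        (G n T).indicator (1 : ℝ × ℝ → ℝ≥0∞) (ρ * Real.cos θ, ρ * Real.sin θ) := by
    calc ENNReal.ofReal (Real.pi / 4) * volume A =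
        ∫⁻ _ in Ioo (-(Real.pi / 2)) (-(Real.pi / 4)), volume A := by
          rw [setLIntegral_const, Real.volume_Ioo, mul_comm]
          congr 2
          ring
      _ ≤ _ := setLIntegral_mono' measurableSet_Ioo h3
  calc ENNReal.ofReal (3/8) * volume A ≤
        ENNReal.ofReal (1/2) * (ENNReal.ofReal (Real.pi / 4) * volume A) := by
        rw [← mul_assoc, ← ENNReal.ofReal_mul (by norm_num)]
        apply mul_le_mul_left
        apply ENNReal.ofReal_le_ofReal
        linarith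
    _ ≤ _ := by
        apply mul_le_mul_right
        exact h7

end Pool.Agent.H45.CircMax
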