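import Pool.Agent.H45.CircMax.Defs

open MeasureTheory Set
open scoped ENNReal

namespace Pool.Agent.H45.CircMax

/-- slope of the parallelogram with index `S` -/
noncomputable def slope (S : Finset ℕ) : ℝ := ∑ j ∈ S, (1/2:ℝ) ^ (j + 1)

/-- the lower edge of the parallelogram with index `S` -/
noncomputable def yy (n : ℕ) (S : Finset ℕ) (t : ℝ) : ℝ :=
  ∑ j ∈ S, (1/2:ℝ) ^ (j + 1) * (t - ((j:ℝ) + 1) / n)

lemma yy_sub (n : ℕ) (S : Finset ℕ) (t u : ℝ) : yy n S t - yy n S u = slope S * (t - u) := by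
  unfold yy slope
  rw [← Finset.sum_sub_distrib, Finset.sum_mul]
  apply Finset.sum_congr rfl
  intro j _
  ring

lemma slope_cover (n : ℕ) {m : ℝ} (h0 : 0 ≤ m) (h1 : m < 1) :
    ∃ S : Finset ℕ, S ⊆ Finset.range n ∧ slope S ≤ m ∧ m < slope S + (1/2:ℝ) ^ n := by
  induction n with
  | zero => exact ⟨∅, by simp, by simpa [slope] using h0, by simpa [slope] using h1⟩
  | succ n ih =>
    obtain ⟨S, hS, h2, h3⟩ := ih
    have hhalf : (1/2:ℝ) ^ n = (1/2:ℝ) ^ (n + 1) + (1/2:ℝ) ^ (n + 1) := by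
      rw [pow_succ]; ring
    by_cases h : slope S + (1/2:ℝ) ^ (n + 1) ≤ m
    · have hn : n ∉ S := fun hn => by simpa using hS hn
      refine ⟨insert n S, ?_, ?_, ?_⟩
      · rw [Finset.range_add_one]
        exact Finset.insert_subset_insert _ hS
      · unfold slope at h ⊢
        rw [Finset.sum_insert hn]
        linarith
      · unfold slope at h3 ⊢
        rw [Finset.sum_insert hn]
        linarith
    · push Not at h
      exact ⟨S, hS.trans (Finset.range_mono (Nat.le_succ n)), h2, h⟩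

lemma sum_half (n : ℕ) : ∑ j ∈ Finset.range n, (1/2:ℝ) ^ (j + 1) = 1 - (1/2:ℝ) ^ n := by
  induction n with
  | zero => simp
  | succ n ih => rw [Finset.sum_range_succ, ih, pow_succ]; ring

lemma slope_nonneg (S : Finset ℕ) : 0 ≤ slope S := Finset.sum_nonneg fun _ _ => by positivity

lemma slope_le_one {n : ℕ} {S : Finset ℕ} (hS : S ⊆ Finset.range n) : slope S ≤ 1 := by
  have h1 : slope S ≤ ∑ j ∈ Finset.range n, (1/2:ℝ) ^ (j + 1) :=
    Finset.sum_le_sum_of_subset_of_nonneg hS fun _ _ _ => by positivity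
  rw [sum_half] at h1
  have : 0 < (1/2:ℝ) ^ n := by positivity
  linarith

lemma yy_abs_le {n : ℕ} {S : Finset ℕ} (hS : S ⊆ Finset.range n) {t : ℝ} (h0 : 0 ≤ t)
    (h1 : t ≤ 1) : |yy n S t| ≤ 1 := by
  refine le_trans ?_ (slope_le_one hS)
  unfold yy slope
  refine (Finset.abs_sum_le_sum_abs _ _).trans (Finset.sum_le_sum fun j hj => ?_)
  have hjn : j < n := Finset.mem_range.1 (hS hj)
  have hn : (0:ℝ) < n := by exact_mod_cast (Nat.zero_lt_of_lt hjn)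
  have h2 : 0 ≤ ((j:ℝ) + 1) / n := by positivity
  have h3 : ((j:ℝ) + 1) / n ≤ 1 := by
    rw [div_le_one hn]
    exact_mod_cast hjn
  rw [abs_mul, abs_of_pos (show (0:ℝ) < (1/2:ℝ) ^ (j + 1) by positivity)]
  have h4 : |t - ((j:ℝ) + 1) / n| ≤ 1 := by
    rw [abs_le]; constructor <;> linarith
  have h5 : (0:ℝ) < (1/2:ℝ) ^ (j + 1) := by positivity
  nlinarith

lemma sum_half' (m : ℕ) :
    ∑ l ∈ Finset.range m, (1/2:ℝ) ^ (l + 1) * ((l:ℝ) + 1) = 2 - (m + 2) * (1/2:ℝ) ^ m := by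
  induction m with
  | zero => simp
  | succ m ih => rw [Finset.sum_range_succ, ih, pow_succ]; push_cast; ring

lemma sum_half'_le (m : ℕ) :
    ∑ l ∈ Finset.range m, (1/2:ℝ) ^ (l + 1) * ((l:ℝ) + 1) ≤ 2 := by
  rw [sum_half']
  have : 0 ≤ ((m:ℝ) + 2) * (1/2:ℝ) ^ m := by positivity
  linarith

lemma suffix {n i : ℕ} (hn : 0 < n) {t : ℝ} (h1 : i ≤ t * n) (h2 : t * n < i + 1)
    {S : Finset ℕ} (hS : S ⊆ Finset.range n) :
    yy n (S.filter (· < i)) t - (1/2:ℝ) ^ i * 2 / n ≤ yy n S t ∧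
      yy n S t ≤ yy n (S.filter (· < i)) t := by
  have hn' : (0:ℝ) < n := by exact_mod_cast hn
  have hsplit : yy n S t = yy n (S.filter (· < i)) t +
      ∑ j ∈ S.filter (fun j => ¬ j < i), (1/2:ℝ) ^ (j + 1) * (t - ((j:ℝ) + 1) / n) := by
    unfold yy
    rw [Finset.sum_filter_add_sum_filter_not]
  have hle : ∑ j ∈ S.filter (fun j => ¬ j < i), (1/2:ℝ) ^ (j + 1) * (t - ((j:ℝ) + 1) / n) ≤ 0 := by
    apply Finset.sum_nonpos
    intro j hj
    have hji : i ≤ j := not_lt.1 (Finset.mem_filter.1 hj).2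
    have hji' : (i:ℝ) ≤ j := by exact_mod_cast hji
    apply mul_nonpos_of_nonneg_of_nonpos (by positivity)
    have : t ≤ ((j:ℝ) + 1) / n := by
      rw [le_div_iff₀ hn']; linarith
    linarith
  have hge : -((1/2:ℝ) ^ i * 2 / n) ≤
      ∑ j ∈ S.filter (fun j => ¬ j < i), (1/2:ℝ) ^ (j + 1) * (t - ((j:ℝ) + 1) / n) := by
    have h3 : ∑ j ∈ S.filter (fun j => ¬ j < i), (1/2:ℝ) ^ (j + 1) * (((j:ℝ) + 1) / n - t) ≤
        ∑ j ∈ Finset.Ico i n, (1/2:ℝ) ^ (j + 1) * (((j:ℝ) + 1 - i) / n) := by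
      have hsub : S.filter (fun j => ¬ j < i) ⊆ Finset.Ico i n := by
        intro j hj
        rw [Finset.mem_filter] at hj
        exact Finset.mem_Ico.2 ⟨not_lt.1 hj.2, Finset.mem_range.1 (hS hj.1)⟩
      refine le_trans (Finset.sum_le_sum fun j _ => ?_)
        (Finset.sum_le_sum_of_subset_of_nonneg hsub fun j hj _ => ?_)
      · apply mul_le_mul_of_nonneg_left _ (by positivity)
        have : (i:ℝ) / n ≤ t := by rw [div_le_iff₀ hn']; linarith
        rw [sub_div]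
        linarith
      · have : (i:ℝ) ≤ j := by exact_mod_cast (Finset.mem_Ico.1 hj).1
        apply mul_nonneg (by positivity)
        apply div_nonneg _ hn'.le
        linarith
    have h4 : ∑ j ∈ Finset.Ico i n, (1/2:ℝ) ^ (j + 1) * (((j:ℝ) + 1 - i) / n) =
        (1/2:ℝ) ^ i / n * ∑ l ∈ Finset.range (n - i), (1/2:ℝ) ^ (l + 1) * ((l:ℝ) + 1) := by
      rw [Finset.sum_Ico_eq_sum_range, Finset.mul_sum]
      apply Finset.sum_congr rfl
      intro l _
      push_cast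
      have : (1/2:ℝ) ^ (i + l + 1) = (1/2:ℝ) ^ i * (1/2:ℝ) ^ (l + 1) := by
        rw [← pow_add]; congr 1
      rw [this]
      ring
    have h5 : (1/2:ℝ) ^ i / n * ∑ l ∈ Finset.range (n - i), (1/2:ℝ) ^ (l + 1) * ((l:ℝ) + 1) ≤
        (1/2:ℝ) ^ i / n * 2 := mul_le_mul_of_nonneg_left (sum_half'_le _) (by positivity)
    have h6 : ∑ j ∈ S.filter (fun j => ¬ j < i), (1/2:ℝ) ^ (j + 1) * (t - ((j:ℝ) + 1) / n) =
        -∑ j ∈ S.filter (fun j => ¬ j < i), (1/2:ℝ) ^ (j + 1) * (((j:ℝ) + 1) / n - t) := by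
      rw [← Finset.sum_neg_distrib]
      apply Finset.sum_congr rfl
      intro j _
      ring
    rw [h6]
    have h7 : (1/2:ℝ) ^ i / n * 2 = (1/2:ℝ) ^ i * 2 / n := by ring
    linarith
  rw [hsplit]
  constructor <;> linarith

lemma slice_le {n : ℕ} (hn : 0 < n) {t : ℝ} (h0 : 0 ≤ t) (h1 : t ≤ 1/2) :
    volume {y : ℝ | ∃ S : Finset ℕ, S ⊆ Finset.range n ∧ yy n S t ≤ y ∧
      y ≤ yy n S t + (1/2:ℝ) ^ n} ≤ ENNReal.ofReal (4 / n) := by
  have hn' : (0:ℝ) < n := by exact_mod_cast hn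
  set i := ⌊t * n⌋₊
  have hi1 : (i:ℝ) ≤ t * n := Nat.floor_le (by positivity)
  have hi2 : t * n < i + 1 := Nat.lt_floor_add_one _
  have hi3 : 2 * i ≤ n := by
    have : (2:ℝ) * i ≤ n := by nlinarith
    exact_mod_cast this
  have hin : i ≤ n := by omega
  have hsub : {y : ℝ | ∃ S : Finset ℕ, S ⊆ Finset.range n ∧ yy n S t ≤ y ∧
      y ≤ yy n S t + (1/2:ℝ) ^ n} ⊆ ⋃ S' ∈ (Finset.range i).powerset,
      Icc (yy n S' t - (1/2:ℝ) ^ i * 2 / n) (yy n S' t + (1/2:ℝ) ^ n) := by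
    rintro y ⟨S, hS, hy1, hy2⟩
    obtain ⟨h3, h4⟩ := suffix hn hi1 hi2 hS
    rw [mem_iUnion₂]
    refine ⟨S.filter (· < i), ?_, ?_⟩
    · rw [Finset.mem_powerset]
      intro j hj
      exact Finset.mem_range.2 (Finset.mem_filter.1 hj).2
    · constructor <;> linarith
  refine (measure_mono hsub).trans ((measure_biUnion_finset_le _ _).trans ?_)
  have hvol : ∀ S' ∈ (Finset.range i).powerset,
      volume (Icc (yy n S' t - (1/2:ℝ) ^ i * 2 / n) (yy n S' t + (1/2:ℝ) ^ n)) =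
      ENNReal.ofReal ((1/2:ℝ) ^ n + (1/2:ℝ) ^ i * 2 / n) := by
    intro S' _
    rw [Real.volume_Icc]
    congr 1
    ring
  rw [Finset.sum_congr rfl hvol, Finset.sum_const, Finset.card_powerset, Finset.card_range,
    nsmul_eq_mul]
  have hcast : ((2 ^ i : ℕ) : ℝ≥0∞) = ENNReal.ofReal ((2:ℝ) ^ i) := by
    rw [ENNReal.ofReal_pow (by norm_num)]
    simp
  rw [hcast, ← ENNReal.ofReal_mul (by positivity)]
  apply ENNReal.ofReal_le_ofReal
  have h5 : (2:ℝ) ^ i * ((1/2:ℝ) ^ n + (1/2:ℝ) ^ i * 2 / n) =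
      (1/2:ℝ) ^ (n - i) + 2 / n := by
    have e1 : (1/2:ℝ) ^ n = (1/2:ℝ) ^ i * (1/2:ℝ) ^ (n - i) := by
      rw [← pow_add]; congr 1; omega
    have e2 : (2:ℝ) ^ i * (1/2:ℝ) ^ i = 1 := by
      rw [← mul_pow]; norm_num
    rw [e1]
    have : (2:ℝ) ^ i * ((1/2:ℝ) ^ i * (1/2:ℝ) ^ (n - i) + (1/2:ℝ) ^ i * 2 / n) =
      ((2:ℝ) ^ i * (1/2:ℝ) ^ i) * ((1/2:ℝ) ^ (n - i) + 2 / n) := by ring
    rw [this, e2, one_mul]
  rw [h5]
  have h6 : (1/2:ℝ) ^ (n - i) ≤ 2 / n := by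
    have h7 : ((n - i : ℕ) : ℝ) ≤ (2:ℝ) ^ (n - i) := by
      exact_mod_cast (Nat.lt_two_pow_self (n := n - i)).le
    have h8 : (n:ℝ) / 2 ≤ ((n - i : ℕ) : ℝ) := by
      have : (n:ℝ) ≤ 2 * ((n - i : ℕ) : ℝ) := by exact_mod_cast (by omega : n ≤ 2 * (n - i))
      linarith
    rw [one_div, inv_pow, ← one_div, div_le_div_iff₀ (by positivity) hn']
    linarith
  have h9 : (4:ℝ) / n = 2 / n + 2 / n := by ring
  linarith

/-- the Kakeya type set -/
def K (n : ℕ) : Set (ℝ × ℝ) :=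
  {z | 0 ≤ z.1 ∧ z.1 ≤ 1/2 ∧ ∃ S : Finset ℕ, S ⊆ Finset.range n ∧ yy n S z.1 ≤ z.2 ∧
    z.2 ≤ yy n S z.1 + (1/2:ℝ) ^ n}

lemma continuous_yy (n : ℕ) (S : Finset ℕ) : Continuous (yy n S) := by
  unfold yy
  fun_prop

lemma measurableSet_K (n : ℕ) : MeasurableSet (K n) := by
  have : K n = ⋃ S ∈ (Finset.range n).powerset, ({z : ℝ × ℝ | 0 ≤ z.1} ∩ {z | z.1 ≤ 1/2} ∩
      {z | yy n S z.1 ≤ z.2} ∩ {z | z.2 ≤ yy n S z.1 + (1/2:ℝ) ^ n}) := by
    ext z
    simp only [K, mem_ofPred_eq, mem_iUnion, Finset.mem_powerset, mem_inter_iff, exists_prop]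
    constructor
    · rintro ⟨h1, h2, S, h3, h4, h5⟩
      exact ⟨S, h3, ⟨⟨h1, h2⟩, h4⟩, h5⟩
    · rintro ⟨S, h3, ⟨⟨h1, h2⟩, h4⟩, h5⟩
      exact ⟨h1, h2, S, h3, h4, h5⟩
  rw [this]
  apply Finset.measurableSet_biUnion
  intro S _
  have hc : Continuous fun z : ℝ × ℝ => yy n S z.1 := (continuous_yy n S).comp continuous_fst
  refine (((isClosed_le continuous_const continuous_fst).inter
    (isClosed_le continuous_fst continuous_const)).inter
    (isClosed_le hc continuous_snd)).inter ?_ |>.measurableSet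
  exact isClosed_le continuous_snd (hc.add continuous_const)

lemma volume_K {n : ℕ} (hn : 0 < n) : volume (K n) ≤ ENNReal.ofReal (2 / n) := by
  rw [Measure.volume_eq_prod, Measure.prod_apply (measurableSet_K n)]
  have h1 : ∀ t : ℝ, volume (Prod.mk t ⁻¹' K n) ≤
      (Icc (0:ℝ) (1/2)).indicator (fun _ => ENNReal.ofReal (4 / n)) t := by
    intro t
    by_cases ht : t ∈ Icc (0:ℝ) (1/2)
    · rw [indicator_of_mem ht]
      refine le_trans (measure_mono ?_) (slice_le hn ht.1 ht.2)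
      intro y hy
      exact hy.2.2
    · rw [indicator_of_notMem ht]
      have : Prod.mk t ⁻¹' K n = ∅ := by
        ext y
        simp only [mem_preimage, mem_empty_iff_false, iff_false]
        intro hy
        exact ht ⟨hy.1, hy.2.1⟩
      rw [this]
      simp
  refine (lintegral_mono h1).trans ?_
  rw [lintegral_indicator measurableSet_Icc, setLIntegral_const, Real.volume_Icc,
    ← ENNReal.ofReal_mul (by positivity)]
  apply ENNReal.ofReal_le_ofReal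
  have : (4:ℝ) / n * (1/2 - 0) = 2 / n := by ring
  rw [this]

/-- the rescaled set -/
def EE (n : ℕ) : Set (ℝ × ℝ) := (fun q : ℝ × ℝ => ((1/2:ℝ) ^ n)⁻¹ • q) ⁻¹' K n

lemma measurableSet_EE (n : ℕ) : MeasurableSet (EE n) :=
  (measurable_const_smul _) (measurableSet_K n)

lemma volume_EE {n : ℕ} (hn : 0 < n) :
    volume (EE n) ≤ ENNReal.ofReal (((1/2:ℝ) ^ n) ^ 2 * (2 / n)) := by
  unfold EE
  rw [Measure.addHaar_preimage_smul _ (by positivity)]
  have h1 : Module.finrank ℝ (ℝ × ℝ) = 2 := by simp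
  rw [h1, ENNReal.ofReal_mul (by positivity)]
  apply mul_le_mul _ (volume_K hn) zero_le zero_le
  apply ENNReal.ofReal_le_ofReal
  rw [inv_pow, inv_inv, abs_of_pos (by positivity)]

end Pool.Agent.H45.CircMax
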