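import Pool.Agent.H45.CircMax.Good

open MeasureTheory Set
open scoped ENNReal

namespace Pool.Agent.H45.CircMax

lemma RestrictedWeakType.mono {T : Set ℝ} {C C' : ℝ} (h : RestrictedWeakType T C) (hC : C ≤ C') :
    RestrictedWeakType T C' := by
  intro E hE hE' lam hlam
  refine (h E hE hE' lam hlam).trans ?_
  gcongr

lemma main_one {T : Set ℝ} {C : ℝ} (hC : 0 ≤ C) (h : RestrictedWeakType T C) {n : ℕ}
    (hn : 2 ≤ n) :
    volume (thick T (eta n ^ 2 / 32) ∩ Icc 1 2) ≤ ENNReal.ofReal (2 ^ 23 * C / n) := by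
  have hη := eta_pos n
  have hn' : (0:ℝ) < n := by exact_mod_cast (by omega : 0 < n)
  have h1 := h (EE n) (measurableSet_EE n)
    ((volume_EE (by omega)).trans_lt ENNReal.ofReal_lt_top) (eta n / 1024) (by positivity)
  have h2 : ENNReal.ofReal (3/8) * volume (thick T (eta n ^ 2 / 32) ∩ Icc 1 2) ≤
      ENNReal.ofReal (2 ^ 21 * C / n) := by
    refine (volume_G_ge hn T).trans ((measure_mono (G_subset hn T)).trans (h1.trans ?_))
    refine (mul_le_mul_right (volume_EE (by omega)) _).trans ?_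
    rw [← ENNReal.ofReal_mul (by positivity)]
    apply ENNReal.ofReal_le_ofReal
    have e : (1/2:ℝ) ^ n = eta n := rfl
    rw [e]
    have : C * ((eta n / 1024) ^ 2)⁻¹ * (eta n ^ 2 * (2 / n)) = 2 ^ 21 * C / n := by
      field_simp
      norm_num
    rw [this]
  have h3 : volume (thick T (eta n ^ 2 / 32) ∩ Icc 1 2) =
      ENNReal.ofReal (8/3) * (ENNReal.ofReal (3/8) * volume (thick T (eta n ^ 2 / 32) ∩ Icc 1 2)) := by
    rw [← mul_assoc, ← ENNReal.ofReal_mul (by norm_num)]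
    norm_num
  rw [h3]
  refine (mul_le_mul_right h2 _).trans ?_
  rw [← ENNReal.ofReal_mul (by norm_num)]
  apply ENNReal.ofReal_le_ofReal
  have h4 : 0 ≤ C / n := div_nonneg hC hn'.le
  have h5 : 8 / 3 * (2 ^ 21 * C / n) = 8 / 3 * 2 ^ 21 * (C / n) := by ring
  have h6 : 2 ^ 23 * C / n = 2 ^ 23 * (C / n) := by ring
  rw [h5, h6]
  nlinarith

lemma circAvg_scale (f : ℝ × ℝ → ℂ) {R : ℝ} (x : ℝ × ℝ) (r : ℝ) :
    circAvg (fun q => f (R⁻¹ • q)) x r = circAvg f (R⁻¹ • x) (R⁻¹ * r) := by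
  unfold circAvg
  simp only [Prod.smul_fst, Prod.smul_snd, Prod.smul_mk, smul_eq_mul, mul_add, mul_assoc]

lemma circMax_scale (T : Set ℝ) (f : ℝ × ℝ → ℂ) {R : ℝ} (hR : 0 < R) (x : ℝ × ℝ) :
    circMax T (fun q => f (R⁻¹ • q)) x = circMax {u | R * u ∈ T} f (R⁻¹ • x) := by
  unfold circMax
  simp_rw [circAvg_scale]
  apply le_antisymm
  · apply iSup₂_le
    intro r hr
    refine le_iSup₂ (f := fun u (_ : u ∈ {u | R * u ∈ T}) => circAvg f (R⁻¹ • x) u) (R⁻¹ * r) ?_
    change R * (R⁻¹ * r) ∈ T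
    rw [mul_inv_cancel_left₀ hR.ne']
    exact hr
  · apply iSup₂_le
    intro u hu
    have h1 := le_iSup₂ (f := fun r (_ : r ∈ T) => circAvg f (R⁻¹ • x) (R⁻¹ * r)) (R * u) hu
    rwa [inv_mul_cancel_left₀ hR.ne'] at h1

lemma RestrictedWeakType.scale {T : Set ℝ} {C : ℝ} (h : RestrictedWeakType T C) {R : ℝ}
    (hR : 0 < R) : RestrictedWeakType {u | R * u ∈ T} C := by
  intro E hE hE' lam hlam
  have hfin : Module.finrank ℝ (ℝ × ℝ) = 2 := by simp
  have hvol : ∀ s : Set (ℝ × ℝ), volume ((fun q : ℝ × ℝ => R⁻¹ • q) ⁻¹' s) =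
      ENNReal.ofReal (R ^ 2) * volume s := by
    intro s
    rw [Measure.addHaar_preimage_smul _ (by positivity), hfin]
    congr 2
    rw [inv_pow, inv_inv, abs_of_pos (by positivity)]
  have h1 := h ((fun q : ℝ × ℝ => R⁻¹ • q) ⁻¹' E) ((measurable_const_smul _) hE)
    (by rw [hvol]; exact ENNReal.mul_lt_top ENNReal.ofReal_lt_top hE') lam hlam
  have h2 : ((fun q : ℝ × ℝ => R⁻¹ • q) ⁻¹' E).indicator (1 : ℝ × ℝ → ℂ) =
      fun q => E.indicator (1 : ℝ × ℝ → ℂ) (R⁻¹ • q) := by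
    funext q
    by_cases hq : R⁻¹ • q ∈ E
    · rw [indicator_of_mem hq, indicator_of_mem (show q ∈ (fun q : ℝ × ℝ => R⁻¹ • q) ⁻¹' E from hq)]
      rfl
    · rw [indicator_of_notMem hq,
        indicator_of_notMem (show q ∉ (fun q : ℝ × ℝ => R⁻¹ • q) ⁻¹' E from hq)]
  have h3 : {x | ENNReal.ofReal lam < circMax T
      (((fun q : ℝ × ℝ => R⁻¹ • q) ⁻¹' E).indicator (1 : ℝ × ℝ → ℂ)) x} =
      (fun q : ℝ × ℝ => R⁻¹ • q) ⁻¹' {x | ENNReal.ofReal lam <
        circMax {u | R * u ∈ T} (E.indicator (1 : ℝ × ℝ → ℂ)) x} := by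
    ext x
    change ENNReal.ofReal lam < circMax T
      (((fun q : ℝ × ℝ => R⁻¹ • q) ⁻¹' E).indicator (1 : ℝ × ℝ → ℂ)) x ↔
      ENNReal.ofReal lam < circMax {u | R * u ∈ T} (E.indicator (1 : ℝ × ℝ → ℂ)) (R⁻¹ • x)
    rw [h2, circMax_scale T _ hR]
  rw [h3, hvol, hvol] at h1
  have hR2 : ENNReal.ofReal (R ^ 2) ≠ 0 := (ENNReal.ofReal_pos.2 (by positivity)).ne'
  rw [mul_left_comm] at h1
  exact (ENNReal.mul_le_mul_iff_right hR2 ENNReal.ofReal_ne_top).1 h1

lemma main_scale {T : Set ℝ} {C : ℝ} (hC : 0 ≤ C) (h : RestrictedWeakType T C) {R : ℝ}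
    (hR : 0 < R) {n : ℕ} (hn : 2 ≤ n) :
    volume (thick T (eta n ^ 2 / 32 * R) ∩ Icc R (2 * R)) ≤
      ENNReal.ofReal (2 ^ 23 * C * R / n) := by
  have h1 := main_one hC (h.scale hR) hn
  have h2 : thick {u | R * u ∈ T} (eta n ^ 2 / 32) ∩ Icc 1 2 =
      (fun u => R * u) ⁻¹' (thick T (eta n ^ 2 / 32 * R) ∩ Icc R (2 * R)) := by
    ext u
    simp only [thick, mem_inter_iff, mem_ofPred_eq, mem_preimage, mem_Icc]
    constructor
    · rintro ⟨⟨t, ht, htu⟩, hu1, hu2⟩
      refine ⟨⟨R * t, ht, ?_⟩, ?_, ?_⟩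
      · rw [← mul_sub, abs_mul, abs_of_pos hR, mul_comm]
        exact mul_lt_mul_of_pos_right htu hR
      · nlinarith
      · nlinarith
    · rintro ⟨⟨t, ht, htu⟩, hu1, hu2⟩
      refine ⟨⟨R⁻¹ * t, ?_, ?_⟩, ?_, ?_⟩
      · rw [mul_inv_cancel_left₀ hR.ne']; exact ht
      · have e : R⁻¹ * t - u = R⁻¹ * (t - R * u) := by
          rw [mul_sub, inv_mul_cancel_left₀ hR.ne']
        rw [e, abs_mul, abs_of_pos (inv_pos.2 hR), inv_mul_lt_iff₀ hR]
        linarith
      · nlinarith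
      · nlinarith
  rw [h2, Real.volume_preimage_mul_left hR.ne', abs_of_pos (inv_pos.2 hR)] at h1
  have h3 : volume (thick T (eta n ^ 2 / 32 * R) ∩ Icc R (2 * R)) =
      ENNReal.ofReal R * (ENNReal.ofReal R⁻¹ *
        volume (thick T (eta n ^ 2 / 32 * R) ∩ Icc R (2 * R))) := by
    rw [← mul_assoc, ← ENNReal.ofReal_mul hR.le, mul_inv_cancel₀ hR.ne', ENNReal.ofReal_one,
      one_mul]
  rw [h3]
  refine (mul_le_mul_right h1 _).trans ?_
  rw [← ENNReal.ofReal_mul hR.le]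
  apply ENNReal.ofReal_le_ofReal
  apply le_of_eq
  ring

lemma thick_mono (T : Set ℝ) {δ δ' : ℝ} (h : δ ≤ δ') : thick T δ ⊆ thick T δ' := by
  rintro u ⟨t, ht, htu⟩
  exact ⟨t, ht, htu.trans_le h⟩

lemma eta_sq (n : ℕ) : eta n ^ 2 / 32 = (1/2:ℝ) ^ (2 * n + 5) := by
  unfold eta
  rw [← pow_mul, pow_add, mul_comm n 2]
  norm_num
  ring

/-- the quantitative form -/
theorem main_quant {T : Set ℝ} {C : ℝ} (hC : 0 ≤ C) (h : RestrictedWeakType T C) {R : ℝ}
    (hR : 0 < R) {δ : ℝ} (hδ : 0 < δ) (hδ2 : δ ≤ 1/2) :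
    volume {u ∈ Icc R (2 * R) | ∃ t ∈ T, |t - u| < δ * R} ≤
      ENNReal.ofReal (2 ^ 40 * C * R / Real.log (1 / δ)) := by
  have hset : {u ∈ Icc R (2 * R) | ∃ t ∈ T, |t - u| < δ * R} =
      thick T (δ * R) ∩ Icc R (2 * R) := by
    ext u
    simp only [thick, mem_inter_iff, mem_ofPred_eq]
    exact and_comm
  rw [hset]
  have hlog2 : 0 < Real.log 2 := Real.log_pos (by norm_num)
  have hlog2' : Real.log 2 < 1 := by
    have := Real.log_two_lt_d9
    linarith
  have hlog : Real.log (1 / δ) = -Real.log δ := by rw [one_div, Real.log_inv]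
  have hlogpos : 0 < Real.log (1 / δ) := by
    apply Real.log_pos
    rw [lt_div_iff₀ hδ]; linarith
  rcases le_or_gt δ ((1/2:ℝ) ^ 9) with hsmall | hlarge
  · -- choose `n`
    set X := Real.log (1 / δ) / Real.log 2 with hX
    have hX9 : 9 ≤ X := by
      rw [hX, le_div_iff₀ hlog2]
      have h1 : Real.log δ ≤ Real.log ((1/2:ℝ) ^ 9) := Real.log_le_log hδ hsmall
      rw [Real.log_pow, one_div, Real.log_inv] at h1
      rw [hlog]
      push_cast at h1
      linarith
    set n := ⌊(X - 5) / 2⌋₊ with hn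
    have hn1 : (n:ℝ) ≤ (X - 5) / 2 := Nat.floor_le (by linarith)
    have hn2 : (X - 5) / 2 < n + 1 := Nat.lt_floor_add_one _
    have hn3 : 2 ≤ n := by
      rw [hn]
      apply Nat.le_floor
      push_cast
      linarith
    have hn' : (0:ℝ) < n := by exact_mod_cast (by omega : 0 < n)
    have hδn : δ ≤ eta n ^ 2 / 32 := by
      rw [eta_sq]
      have h2 : Real.log δ ≤ Real.log ((1/2:ℝ) ^ (2 * n + 5)) := by
        rw [Real.log_pow, one_div, Real.log_inv]
        push_cast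
        have h3 : X * Real.log 2 = -Real.log δ := by
          rw [hX, div_mul_cancel₀ _ hlog2.ne', hlog]
        have h4 : (2 * (n:ℝ) + 5) * Real.log 2 ≤ X * Real.log 2 :=
          mul_le_mul_of_nonneg_right (by linarith) hlog2.le
        linarith
      exact (Real.log_le_log_iff hδ (by positivity)).1 h2
    have h5 := main_scale hC h hR hn3
    refine (measure_mono (inter_subset_inter_left _
      (thick_mono T (mul_le_mul_of_nonneg_right hδn hR.le)))).trans (h5.trans ?_)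
    apply ENNReal.ofReal_le_ofReal
    rw [div_le_div_iff₀ hn' hlogpos]
    have h6 : Real.log (1 / δ) ≤ 9 * n := by
      have h7 : Real.log (1 / δ) = X * Real.log 2 := by rw [hX, div_mul_cancel₀ _ hlog2.ne']
      rw [h7]
      have h8 : X ≤ 9 * n := by linarith
      have h9 : 0 ≤ X := by linarith
      nlinarith
    have h10 : 0 ≤ C * R := mul_nonneg hC hR.le
    calc 2 ^ 23 * C * R * Real.log (1 / δ) = 2 ^ 23 * (C * R) * Real.log (1 / δ) := by ring
      _ ≤ 2 ^ 23 * (C * R) * (9 * n) := mul_le_mul_of_nonneg_left h6 (by positivity)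
      _ ≤ 2 ^ 40 * C * R * n := by nlinarith [mul_nonneg h10 hn'.le]
  · -- large `δ`
    by_cases hemp : thick T (δ * R) ∩ Icc R (2 * R) = ∅
    · rw [hemp]; simp
    · obtain ⟨u, ⟨t, ht, htu⟩, hu⟩ := nonempty_iff_ne_empty.2 hemp
      have ht0 : 0 < t := by
        have h1 := (abs_lt.1 htu).1
        have h2 := hu.1
        nlinarith
      have h1 := main_scale hC h ht0 (le_refl 2)
      have hsub : Ico t (t + eta 2 ^ 2 / 32 * t) ⊆ thick T (eta 2 ^ 2 / 32 * t) ∩ Icc t (2 * t) := by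
        intro v hv
        have he : eta 2 ^ 2 / 32 ≤ 1 := by
          unfold eta; norm_num
        refine ⟨⟨t, ht, ?_⟩, hv.1, ?_⟩
        · rw [abs_lt]
          constructor
          · linarith [hv.2]
          · have : 0 < eta 2 ^ 2 / 32 * t := by
              have := eta_pos 2
              positivity
            linarith [hv.1]
        · have := hv.2
          nlinarith
      have h2 := (measure_mono hsub).trans h1
      rw [Real.volume_Ico, ENNReal.ofReal_le_ofReal_iff (by positivity)] at h2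
      have h3 : eta 2 ^ 2 / 32 = 1 / 512 := by unfold eta; norm_num
      rw [h3] at h2
      push_cast at h2
      have h4 : 1 / 512 ≤ 2 ^ 22 * C := by
        have h5 : 1 / 512 * t ≤ 2 ^ 22 * C * t := by linarith
        exact le_of_mul_le_mul_right h5 ht0
      refine (measure_mono inter_subset_right).trans ?_
      rw [Real.volume_Icc]
      apply ENNReal.ofReal_le_ofReal
      rw [le_div_iff₀ hlogpos]
      have h6 : Real.log (1 / δ) ≤ 9 := by
        have h7 : Real.log ((1/2:ℝ) ^ 9) ≤ Real.log δ := Real.log_le_log (by positivity) hlarge.le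
        rw [Real.log_pow, one_div, Real.log_inv] at h7
        rw [hlog]
        push_cast at h7
        linarith
      have h8 : (2 * R - R) * Real.log (1 / δ) ≤ R * 9 := by
        have : 2 * R - R = R := by ring
        rw [this]
        exact mul_le_mul_of_nonneg_left h6 hR.le
      nlinarith

/-- failure for the full circular maximal operator -/
theorem main_neg (C : ℝ) : ¬ RestrictedWeakType (Ioi 0) C := by
  intro h0
  have h : RestrictedWeakType (Ioi 0) (max C 1) := h0.mono (le_max_left _ _)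
  set C' := max C 1 with hC'
  have hC1 : 1 ≤ C' := le_max_right _ _
  set δ := Real.exp (-(2 ^ 41 * C')) with hδ
  have hδ0 : 0 < δ := Real.exp_pos _
  have hlog : Real.log (1 / δ) = 2 ^ 41 * C' := by
    rw [one_div, Real.log_inv, hδ, Real.log_exp, neg_neg]
  have hδ2 : δ ≤ 1/2 := by
    have h1 : δ ≤ Real.exp (-1) := by
      rw [hδ]
      apply Real.exp_le_exp.2
      have : (1:ℝ) ≤ 2 ^ 41 * C' := by nlinarith
      linarith
    have h2 : Real.exp (-1) ≤ 1/2 := by
      rw [Real.exp_neg, ← one_div]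
      apply one_div_le_one_div_of_le (by norm_num)
      have := Real.add_one_le_exp 1
      linarith
    linarith
  have h1 := main_quant (by linarith) h one_pos hδ0 hδ2
  have h2 : {u ∈ Icc (1:ℝ) (2 * 1) | ∃ t ∈ Ioi (0:ℝ), |t - u| < δ * 1} = Icc 1 2 := by
    ext u
    simp only [mem_ofPred_eq]
    constructor
    · rintro ⟨hu, _⟩
      simpa using hu
    · intro hu
      refine ⟨by simpa using hu, u, ?_, ?_⟩
      · exact lt_of_lt_of_le one_pos hu.1
      · simpa using hδ0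
  rw [h2, Real.volume_Icc, ENNReal.ofReal_le_ofReal_iff (by rw [hlog]; positivity), hlog] at h1
  have h3 : (2:ℝ) ^ 40 * C' * 1 / (2 ^ 41 * C') = 1 / 2 := by
    have : C' ≠ 0 := by positivity
    field_simp
  rw [h3] at h1
  norm_num at h1

theorem main :
    (∀ C : ℝ, ¬ RestrictedWeakType (Ioi 0) C) ∧
    ∀ (T : Set ℝ) (C : ℝ), 0 ≤ C → RestrictedWeakType T C →
      ∀ R δ : ℝ, 0 < R → 0 < δ → δ ≤ 1/2 →
        volume {u ∈ Icc R (2 * R) | ∃ t ∈ T, |t - u| < δ * R} ≤
          ENNReal.ofReal (2 ^ 40 * C * R / Real.log (1 / δ)) :=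
  ⟨main_neg, fun _ _ hC h _ _ hR hδ hδ2 => main_quant hC h hR hδ hδ2⟩

end Pool.Agent.H45.CircMax
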